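import Pool.Agent.Helper98.EQ.Goals
import Pool.Agent.Helper64.EP.NIL

/-!
# Project EQ (MP_5b9a11_al), packet NIL: idempotents killed by `θ`, general action
-/

set_option autoImplicit false
set_option linter.unusedSectionVars false

namespace Pool.Agent.Helper26.EQ.NIL

open MonoidAlgebra IsLocalRing Pool.Agent.Helper17.PF
open Pool.Agent.Helper47.EP (Dat Chr Hs Om ee ev pHB)
open Pool.Agent.Helper98.EQ

variable {p : ℕ} {T : Dat p} {A : Type} [Fintype A] [DecidableEq A] {F : Type} [Field F]
  {D : Type} [Group D] {M : SA T A D} {C : Chr T F}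

/-- the action on the group algebra -/
noncomputable def act (F : Type) [Field F] (M : SA T A D) (d : D) :
    MonoidAlgebra F (Hs T A) →+* MonoidAlgebra F (Hs T A) :=
  MonoidAlgebra.mapDomainRingHom F (M.sa d).toMonoidHom

theorem act_single (d : D) (g : Hs T A) (c : F) :
    act F M d (single g c) = single (M.s d g) c := by
  unfold act
  exact mapDomain_single

theorem inE_single (M : SA T A D) (g : Hs T A) (c : F) :
    inE M F (single g c) = single (SemidirectProduct.inl g) c := by
  unfold inE
  exact mapDomain_single

theorem act_inv (d : D) (y : MonoidAlgebra F (Hs T A)) :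
    act F M d⁻¹ (act F M d y) = y := by
  induction y using MonoidAlgebra.induction_linear with
  | zero => simp
  | add a b ha hb => rw [map_add, map_add, ha, hb]
  | single g c =>
    rw [act_single, act_single, M.s_apply, M.s_apply]
    congr 1
    ext1
    · exact M.inv_left d _
    · rfl

/-- (F1) -/
theorem sg_inE (d : D) (y : MonoidAlgebra F (Hs T A)) :
    (single (SemidirectProduct.inr d) 1 : MonoidAlgebra F (GG M)) * inE M F y =
      inE M F (act F M d y) * single (SemidirectProduct.inr d) 1 := by
  induction y using MonoidAlgebra.induction_linear with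
  | zero => simp
  | add a b ha hb => rw [map_add, map_add, map_add, mul_add, add_mul, ha, hb]
  | single g c =>
    rw [act_single, inE_single, inE_single, single_mul_single, single_mul_single]
    congr 1
    · have h := SemidirectProduct.inl_aut (φ := M.s) d g
      rw [h]
      simp
    · rw [one_mul, mul_one]

/-- (F2) -/
theorem act_r (I : Imp M C) (d : D) (y : MonoidAlgebra F (Hs T A)) :
    act F M d y * I.r d = I.r d * y := by
  induction y using MonoidAlgebra.induction_linear with
  | zero => simp
  | add a b ha hb => rw [map_add, add_mul, mul_add, ha, hb]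
  | single g c =>
    have h1 : (single g c : MonoidAlgebra F (Hs T A)) = c • single g 1 := by simp
    have h2 : (single (M.s d g) c : MonoidAlgebra F (Hs T A)) = c • single (M.s d g) 1 := by simp
    rw [act_single, h1, h2, smul_mul_assoc, I.conj, mul_smul_comm]

/-- the elements `d'` -/
noncomputable def dd (I : Imp M C) (d : D) : MonoidAlgebra F (GG M) :=
  inE M F (I.r d⁻¹) * single (SemidirectProduct.inr d) 1

theorem dd_one (I : Imp M C) : dd I 1 = inE M F (ee C A) := by
  unfold dd
  rw [inv_one, I.one]
  exact mul_one _

theorem dd_comm (I : Imp M C) (d : D) (y : MonoidAlgebra F (Hs T A)) :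
    dd I d * inE M F y = inE M F y * dd I d := by
  unfold dd
  rw [mul_assoc, sg_inE, ← mul_assoc, ← map_mul, ← act_r I d⁻¹, act_inv, map_mul, mul_assoc]

theorem dd_mul (I : Imp M C) (a b : D) : dd I (a * b) = dd I a * dd I b := by
  have h : dd I b = inE M F (I.r b⁻¹) * single (SemidirectProduct.inr b) 1 := rfl
  rw [h, ← mul_assoc, dd_comm, mul_assoc]
  unfold dd
  rw [mul_assoc (inE M F (I.r a⁻¹)), single_mul_single, ← mul_assoc, ← map_mul, ← I.mul,
    ← mul_inv_rev, mul_one, ← map_mul]

theorem t : S_NIL := by
  intro p _ T A _ _ F _ _ C D _ _ hD M I x hxx hex hth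
  let _ : Algebra (ZMod p) F := ZMod.algebra F p
  obtain ⟨-, b2, -⟩ := pHB p T A F C
  refine Pool.Agent.Helper64.EP.NIL.key p hD (inE M F) (dd I) (dd_mul I) (dd_comm I)
    x.coeff.support (fun g => g.right)
    (fun g => single g.left (x.coeff g) * I.r g.right) x ?_ hxx
  have h1 : x = ∑ g ∈ x.coeff.support, single g (x.coeff g) := by
    ext g
    classical
    simp [MonoidAlgebra.coeff_sum, MonoidAlgebra.coeff_single, Finsupp.single_apply]
  have h2 : ∑ g ∈ x.coeff.support, single g.left (x.coeff g) * I.r g.right = 0 := by
    rw [← hth]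
    unfold th Finsupp.sum
    refine Finset.sum_congr rfl fun g _ => ?_
    have h3 : (single g.left (x.coeff g) : MonoidAlgebra F (Hs T A)) =
      x.coeff g • single g.left 1 := by simp
    rw [h3, smul_mul_assoc]
  have h4 : ∑ g ∈ x.coeff.support,
      inE M F (single g.left (x.coeff g) * I.r g.right) * dd I 1 = 0 := by
    rw [← Finset.sum_mul, ← map_sum, h2, map_zero, zero_mul]
  simp only [mul_sub]
  rw [Finset.sum_sub_distrib, h4, sub_zero]
  conv_lhs => rw [← hex, h1, Finset.mul_sum]
  refine Finset.sum_congr rfl fun g _ => ?_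
  unfold dd
  rw [← mul_assoc, ← map_mul, mul_assoc, ← I.mul, mul_inv_cancel, I.one, ← b2, map_mul, mul_assoc,
    inE_single, single_mul_single, mul_one]
  congr 2
  exact (SemidirectProduct.inl_left_mul_inr_right g).symm

end Pool.Agent.Helper26.EQ.NIL
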