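import Pool.Agent.Helper98.EQ.Goals

/-!
# Project EQ (MP_5b9a11_al), packet TH: the map `θ` for a general action
-/

set_option autoImplicit false
set_option linter.unusedSectionVars false

namespace Pool.Agent.Helper26.EQ.TH

open MonoidAlgebra IsLocalRing Pool.Agent.Helper17.PF
open Pool.Agent.Helper47.EP (Dat Chr Hs Om ee ev pHB)
open Pool.Agent.Helper98.EQ

variable {p : ℕ} {T : Dat p} {A : Type} [Fintype A] [DecidableEq A] {R : Type} [CommRing R]
  {D : Type} [Group D] {M : SA T A D} {C : Chr T R} (I : Imp M C)

theorem th_add (x y : MonoidAlgebra R (GG M)) : th I (x + y) = th I x + th I y := by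
  unfold th
  rw [coeff_add]
  exact Finsupp.sum_add_index' (fun _ => zero_smul _ _) (fun _ _ _ => add_smul _ _ _)

theorem th_smul (c : R) (x : MonoidAlgebra R (GG M)) : th I (c • x) = c • th I x := by
  unfold th
  rw [coeff_smul]
  have h := Finsupp.sum_smul_index (g := x.coeff) (b := c) (h := fun (g : GG M) (c : R) =>
    c • (single g.left (1 : R) * I.r g.right)) fun _ => zero_smul _ _
  refine h.trans ?_
  rw [Finsupp.smul_sum]
  refine Finsupp.sum_congr fun g _ => ?_
  rw [smul_smul]

theorem th_single (g : GG M) (c : R) : th I (single g c) =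
    c • (single g.left (1 : R) * I.r g.right) := by
  unfold th
  rw [coeff_single]
  exact Finsupp.sum_single_index (zero_smul _ _)

theorem th_zero : th I 0 = 0 := by
  have h := th_smul I (0 : R) 0
  rwa [zero_smul, zero_smul] at h

theorem single_smul {G : Type} (g : G) (c : R) : single g c = c • single g (1 : R) := by
  rw [smul_single, smul_eq_mul, mul_one]

theorem th_one' : th I 1 = ee C A := by
  rw [one_def, th_single]
  show (1 : R) • (single (1 : Hs T A) (1 : R) * I.r 1) = ee C A
  rw [one_smul, ← one_def, one_mul, I.one]

theorem th_mul (x y : MonoidAlgebra R (GG M)) : th I (x * y) = th I x * th I y := by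
  induction x using MonoidAlgebra.induction_linear with
  | zero => rw [zero_mul, th_zero, zero_mul]
  | add x x' h h' => rw [add_mul, th_add, h, h', th_add, add_mul]
  | single g c =>
    induction y using MonoidAlgebra.induction_linear with
    | zero => rw [mul_zero, th_zero, mul_zero]
    | add y y' h h' => rw [mul_add, th_add, h, h', th_add, mul_add]
    | single g' c' =>
      rw [single_mul_single, th_single, th_single, th_single, smul_mul_smul_comm]
      congr 1
      rw [SemidirectProduct.mul_left, SemidirectProduct.mul_right, I.mul]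
      have h1 : single (g.left * (M.s g.right) g'.left) (1 : R) =
          single g.left 1 * single ((M.s g.right) g'.left) 1 := by
        rw [single_mul_single, mul_one]
      rw [h1]
      calc single g.left (1 : R) * single ((M.s g.right) g'.left) 1 *
            (I.r g.right * I.r g'.right)
          = single g.left (1 : R) * (single ((M.s g.right) g'.left) 1 *
            I.r g.right) * I.r g'.right := by
            simp only [mul_assoc]
        _ = _ := by
            rw [I.conj]
            simp only [mul_assoc]

theorem th_inE (y : MonoidAlgebra R (Hs T A)) : th I (inE M R y) = y * ee C A := by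
  induction y using MonoidAlgebra.induction_linear with
  | zero => rw [map_zero, th_zero, zero_mul]
  | add y y' h h' => rw [map_add, th_add, h, h', add_mul]
  | single g c =>
    have h1 : inE M R (single g c) = single (SemidirectProduct.inl g) c := by
      unfold inE
      exact mapDomain_single
    rw [h1, th_single, SemidirectProduct.left_inl, SemidirectProduct.right_inl, I.one,
      single_smul g c, smul_mul_assoc]

theorem th_ee [Fact p.Prime] (x : MonoidAlgebra R (GG M)) : ee C A * th I x = th I x := by
  obtain ⟨-, b2, -⟩ := pHB p T A R C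
  induction x using MonoidAlgebra.induction_linear with
  | zero => rw [th_zero, mul_zero]
  | add x x' h h' => rw [th_add, mul_add, h, h']
  | single g c =>
    rw [th_single, mul_smul_comm, ← mul_assoc, b2, mul_assoc, I.er]

theorem th_map [Fact p.Prime] (S : Type) [CommRing S] (f : R →+* S)
    (x : MonoidAlgebra R (GG M)) : MonoidAlgebra.mapRingHom (Hs T A) f (th I x) =
      th (I.map f) (MonoidAlgebra.mapRingHom (GG M) f x) := by
  induction x using MonoidAlgebra.induction_linear with
  | zero => rw [map_zero, th_zero, th_zero, map_zero]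
  | add x x' h h' => rw [map_add, th_add, th_add, map_add, h, h']
  | single g c =>
    rw [mapRingHom_single, th_single, th_single]
    have h1 : ∀ z : MonoidAlgebra R (Hs T A), MonoidAlgebra.mapRingHom (Hs T A) f (c • z) =
        f c • MonoidAlgebra.mapRingHom (Hs T A) f z := by
      intro z
      ext g
      rw [coeff_mapRingHom, coeff_smul, coeff_smul, Finsupp.smul_apply, Finsupp.smul_apply,
        coeff_mapRingHom, smul_eq_mul, smul_eq_mul, map_mul]
    rw [h1, map_mul, mapRingHom_single, map_one]
    rfl

/-- the automorphism `M.s d` on the group algebra -/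
noncomputable def tm (R : Type) [CommRing R] (M : SA T A D) (d : D) :
    MonoidAlgebra R (Hs T A) ≃+* MonoidAlgebra R (Hs T A) :=
  mapDomainRingEquiv R (M.sa d)

theorem tm_single (d : D) (g : Hs T A) (c : R) : tm R M d (single g c) =
    single (M.s d g) c := mapDomainRingEquiv_single _ _ _

theorem tm_coeff (d : D) (x : MonoidAlgebra R (Hs T A)) (g : Hs T A) :
    (tm R M d x).coeff (M.s d g) = x.coeff g := by
  unfold tm
  rw [coeff_mapDomainRingEquiv, Finsupp.equivMapDomain_apply]
  congr 1
  exact (M.sa d).symm_apply_apply g

theorem m_zero (M : SA T A D) (d : D) : M.m d 0 = 0 := by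
  have h := M.add d 0 0
  rw [add_zero] at h
  exact left_eq_add.1 h

theorem ee_coeff [Fact p.Prime] (C : Chr T R) (g : Hs T A) :
    (ee C A).coeff g = if g.v = 0 then C.il * C.ψ (-g.z) else 0 := by
  obtain ⟨-, -, b3, -, b5, -⟩ := pHB p T A R C
  have h := b3 1
  rw [← one_def, one_mul] at h
  have h1 : C.ψ (1 : Hs T A).z = 1 := AddChar.map_zero_eq_one _
  rw [h1, one_smul] at h
  rw [h]
  exact b5 _ g

theorem ee_inv [Fact p.Prime] (C : Chr T R) (M : SA T A D) (d : D) (g : Hs T A) :
    (ee C A).coeff (M.s d g) = (ee C A).coeff g := by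
  rw [ee_coeff, ee_coeff, M.s_apply]
  have h : M.m d g.v = 0 ↔ g.v = 0 := by
    constructor
    · intro h
      rw [← M.inv_left d g.v, h, m_zero]
    · intro h
      rw [h, m_zero]
  by_cases hv : g.v = 0
  · rw [if_pos (h.2 hv), if_pos hv]
  · rw [if_neg (fun hh => hv (h.1 hh)), if_neg hv]

theorem r_conj [Fact p.Prime] (d : D) (z : MonoidAlgebra R (Hs T A)) (hz : ee C A * z = z) :
    I.r d * z * I.r d⁻¹ = tm R M d z := by
  obtain ⟨-, b2, -⟩ := pHB p T A R C
  have h1 : ∀ z : MonoidAlgebra R (Hs T A), I.r d * z = tm R M d z * I.r d := by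
    intro z
    induction z using MonoidAlgebra.induction_linear with
    | zero => rw [map_zero, mul_zero, zero_mul]
    | add x x' h h' => rw [mul_add, h, h', map_add, add_mul]
    | single g c =>
      rw [tm_single, single_smul, mul_smul_comm, ← I.conj, single_smul (M.s d g) c, smul_mul_assoc]
  have h2 : tm R M d (ee C A) = ee C A := by
    ext g
    obtain ⟨g, rfl⟩ := (M.sa d).surjective g
    exact (tm_coeff d (ee C A) g).trans (ee_inv C M d g).symm
  rw [h1, mul_assoc, ← I.mul, mul_inv_cancel, I.one]
  conv_lhs => rw [← h2, ← map_mul, ← b2, hz]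

theorem t : S_TH := by
  intro p _ T A _ _ D _ _ M R _ C I
  refine ⟨th_mul I, th_inE I, ?_, th_ee I, th_map I, th_add I, th_smul I, th_one' I⟩
  intro d x g
  have h0 : ∀ d : D, th I (single (SemidirectProduct.inr d) 1) = I.r d := by
    intro d
    rw [th_single, SemidirectProduct.left_inr, SemidirectProduct.right_inr, one_smul, ← one_def,
      one_mul]
  rw [th_mul, th_mul, h0, ← map_inv, h0, r_conj I _ _ (th_ee I x), tm_coeff]

end Pool.Agent.Helper26.EQ.TH
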